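import Mathlib
import Pool.Agent.Helper66.ETC.Conj2

set_option autoImplicit false

/-! The decomposition group of a conjugate valuation ring. -/

namespace Pool.Agent.ETC

variable {F K : Type} [Field F] [Field K] [Algebra F K]

theorem dec_conj {V V' : ValuationSubring K} {g : K ≃ₐ[F] K} (hg : ∀ x : K, g x ∈ V' ↔ x ∈ V) :
    ∀ σ : K ≃ₐ[F] K, σ ∈ Dec F V' ↔ g⁻¹ * σ * g ∈ Dec F V := by
  intro σ
  have h1 : ∀ x : K, g ((g⁻¹ * σ * g) x) = σ (g x) := by
    intro x
    rw [AlgEquiv.mul_apply, AlgEquiv.mul_apply]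
    exact g.apply_symm_apply _
  constructor
  · intro h x
    rw [← hg, h1, h, hg]
  · intro h x
    have h2 := h (g⁻¹ x)
    rw [← hg, h1, ← hg] at h2
    have h3 : g (g⁻¹ x) = x := g.apply_symm_apply x
    rwa [h3] at h2

/-- two extensions of a valuation ring are conjugate, and so are the decomposition groups -/
theorem exists_dec_conj [IsGalois F K] {V V' : ValuationSubring K}
    (h : V.comap (algebraMap F K) = V'.comap (algebraMap F K)) :
    ∃ g : K ≃ₐ[F] K, (∀ x : K, g x ∈ V' ↔ x ∈ V) ∧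
      ∀ σ : K ≃ₐ[F] K, σ ∈ Dec F V' ↔ g⁻¹ * σ * g ∈ Dec F V := by
  obtain ⟨g, hg⟩ := conj V V' h
  exact ⟨g, hg, dec_conj hg⟩

end Pool.Agent.ETC
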